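import Pool.Agent.MP_66cee2_co.X.Defs

/-
A one-sided step for the local rank bound: the factor `⟪x, y⟫` costs little for a nearly
isotropic measure.
-/

namespace Pool.Agent.MP_66cee2_co.H84T.H37

open MeasureTheory Set Pool.Agent.MP_66cee2_co.X
open scoped RealInnerProductSpace

/-- bounded measurable functions. -/
def BM {Ω : Type} [MeasurableSpace Ω] (f : Ω → ℝ) : Prop :=
  Measurable f ∧ ∃ C : ℝ, ∀ x, |f x| ≤ C

section

variable {Ω : Type} [MeasurableSpace Ω] {f g : Ω → ℝ}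

theorem BM.int (h : BM f) (ν : Measure Ω) [IsFiniteMeasure ν] : Integrable f ν := by
  obtain ⟨h1, C, h2⟩ := h
  exact (integrable_const C).mono' h1.aestronglyMeasurable (ae_of_all _ h2)

theorem BM.const (c : ℝ) : BM fun _ : Ω => c := ⟨measurable_const, |c|, fun _ => le_rfl⟩

theorem BM.add (h : BM f) (k : BM g) : BM fun x => f x + g x := by
  obtain ⟨h1, C, h2⟩ := h
  obtain ⟨k1, D, k2⟩ := k
  exact ⟨h1.add k1, C + D, fun x => (abs_add_le _ _).trans (add_le_add (h2 x) (k2 x))⟩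

theorem BM.mul (h : BM f) (k : BM g) : BM fun x => f x * g x := by
  obtain ⟨h1, C, h2⟩ := h
  obtain ⟨k1, D, k2⟩ := k
  refine ⟨h1.mul k1, C * D, fun x => ?_⟩
  rw [abs_mul]
  exact mul_le_mul (h2 x) (k2 x) (abs_nonneg _) ((abs_nonneg _).trans (h2 x))

theorem BM.sub (h : BM f) (k : BM g) : BM fun x => f x - g x := by
  obtain ⟨h1, C, h2⟩ := h
  obtain ⟨k1, D, k2⟩ := k
  exact ⟨h1.sub k1, C + D, fun x => (abs_sub _ _).trans (add_le_add (h2 x) (k2 x))⟩

theorem BM.sq (h : BM f) : BM fun x => f x ^ 2 := by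
  simpa only [pow_two] using h.mul h

theorem BM.fst (h : BM f) : BM fun p : Ω × Ω => f p.1 := by
  obtain ⟨h1, C, h2⟩ := h
  exact ⟨h1.comp measurable_fst, C, fun p => h2 _⟩

theorem BM.snd (h : BM f) : BM fun p : Ω × Ω => f p.2 := by
  obtain ⟨h1, C, h2⟩ := h
  exact ⟨h1.comp measurable_snd, C, fun p => h2 _⟩

theorem BM.coord {m : ℕ} {F : Ω → E m} (hF : Measurable F) {C : ℝ} (hC : ∀ x, ‖F x‖ ≤ C)
    (i : Fin m) : BM fun x => F x i :=
  ⟨(by fun_prop : Continuous fun v : E m => v i).measurable.comp hF, C,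
    fun x => (PiLp.norm_apply_le (F x) i).trans (hC x)⟩

theorem BM.inn {m : ℕ} {F : Ω → E m} (hF : Measurable F) {C : ℝ} (hC : ∀ x, ‖F x‖ ≤ C) :
    BM fun p : Ω × Ω => ⟪F p.1, F p.2⟫ :=
  ⟨by fun_prop, C * C, fun p => (abs_real_inner_le_norm _ _).trans
    (mul_le_mul (hC _) (hC _) (norm_nonneg _) ((norm_nonneg _).trans (hC p.1)))⟩

theorem sum_prod {ι : Type} [Fintype ι] (ν : Measure Ω) [IsFiniteMeasure ν] (u v : ι → Ω → ℝ)
    (hu : ∀ i, BM (u i)) (hv : ∀ i, BM (v i)) :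
    ∫ p : Ω × Ω, ∑ i, u i p.1 * v i p.2 ∂(ν.prod ν) = ∑ i, (∫ x, u i x ∂ν) * ∫ x, v i x ∂ν := by
  rw [integral_finsetSum _ fun i _ => ((hu i).fst.mul (hv i).snd).int _]
  exact Finset.sum_congr rfl fun i _ => integral_prod_mul _ _

theorem inn_eq {m : ℕ} (v w : E m) : ⟪v, w⟫ = ∑ i, v i * w i := by
  simp only [PiLp.inner_apply, RCLike.inner_apply, conj_trivial]
  exact Finset.sum_congr rfl fun i _ => mul_comm _ _

theorem ptw (τ g U a a' : ℝ) :
    τ * (g * U ^ 2) + 2 * τ * (g * (a * a')) + 4 * τ ^ 2 * (a * a') - 4 * τ ^ 2 * (U * a) -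
      4 * τ ^ 2 * (U * a') + 3 / 2 * ((τ ^ 2 - g ^ 2) * a ^ 2) +
      3 / 2 * ((τ ^ 2 - g ^ 2) * a' ^ 2) ≤ τ * ((g + 2 * τ) * (U - a - a') ^ 2) := by
  nlinarith [sq_nonneg ((g + τ) * a), sq_nonneg ((g + τ) * a'), sq_nonneg (τ * U - g * a),
    sq_nonneg (τ * U - g * a')]

/-- the centred form. -/
theorem rank_c {d n : ℕ} (ν : Measure Ω) [IsFiniteMeasure ν] {X : Ω → E d} {b : Ω → E n}
    (hX : Measurable X) (hb : Measurable b) {C D : ℝ} (hC : ∀ x, ‖X x‖ ≤ C) (hD : ∀ x, ‖b x‖ ≤ D)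
    (h0 : ∀ j, ∫ x, b x j ∂ν = 0) {τ : ℝ} (hτ : 0 < τ)
    (hi : ∀ᵐ x ∂ν, ∫ y, ⟪X x, X y⟫ ^ 2 ∂ν ≤ τ ^ 2 * ν.real univ) :
    0 ≤ ∫ p : Ω × Ω, (⟪X p.1, X p.2⟫ + 2 * τ) * (1 - ‖b p.1 - b p.2‖ ^ 2) ^ 2 ∂(ν.prod ν) := by
  obtain ⟨a, ha⟩ : ∃ a : Ω → ℝ, a = fun x => ‖b x‖ ^ 2 - 1 / 2 := ⟨_, rfl⟩
  have ba : BM a := by
    rw [ha]
    exact (BM.sq ⟨hb.norm, D, fun x => (abs_norm _).le.trans (hD x)⟩).sub (BM.const _)
  have bg := BM.inn hX hC
  have bU := (BM.const 2).mul (BM.inn hb hD)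
  have cX := BM.coord hX hC
  have cb := BM.coord hb hD
  have e : ∀ p : Ω × Ω, 1 - ‖b p.1 - b p.2‖ ^ 2 = 2 * ⟪b p.1, b p.2⟫ - a p.1 - a p.2 := by
    intro p
    rw [norm_sub_sq_real, ha]
    ring
  have f1 : ∫ p : Ω × Ω, 2 * ⟪b p.1, b p.2⟫ * a p.1 ∂(ν.prod ν) = 0 := by
    have h := sum_prod ν (fun j x => 2 * (b x j * a x)) (fun j x => b x j)
      (fun j => (BM.const 2).mul ((cb j).mul ba)) cb
    simp only [h0, mul_zero, Finset.sum_const_zero] at h
    rw [← h]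
    refine integral_congr_ae (ae_of_all _ fun p => ?_)
    simp only [inn_eq, Finset.mul_sum, Finset.sum_mul]
    exact Finset.sum_congr rfl fun j _ => by ring
  have f1' : ∫ p : Ω × Ω, 2 * ⟪b p.1, b p.2⟫ * a p.2 ∂(ν.prod ν) = 0 := by
    have h := sum_prod ν (fun j x => b x j) (fun j x => 2 * (b x j * a x)) cb
      (fun j => (BM.const 2).mul ((cb j).mul ba))
    simp only [h0, zero_mul, Finset.sum_const_zero] at h
    rw [← h]
    refine integral_congr_ae (ae_of_all _ fun p => ?_)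
    simp only [inn_eq, Finset.mul_sum, Finset.sum_mul]
    exact Finset.sum_congr rfl fun j _ => by ring
  have f2 : 0 ≤ ∫ p : Ω × Ω, ⟪X p.1, X p.2⟫ * (2 * ⟪b p.1, b p.2⟫) ^ 2 ∂(ν.prod ν) := by
    have hu : ∀ q : Fin d × Fin n × Fin n, BM fun x => 2 * (X x q.1 * (b x q.2.1 * b x q.2.2)) :=
      fun q => (BM.const 2).mul ((cX _).mul ((cb _).mul (cb _)))
    have h := sum_prod ν _ _ hu hu
    refine (Finset.sum_nonneg fun q _ => mul_self_nonneg _).trans (h.symm.trans ?_).le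
    refine integral_congr_ae (ae_of_all _ fun p => ?_)
    simp only [inn_eq, sq, Fintype.sum_prod_type, Finset.mul_sum, Finset.sum_mul]
    refine Finset.sum_comm.trans (Finset.sum_congr rfl fun j _ => ?_)
    refine Finset.sum_comm.trans (Finset.sum_congr rfl fun k _ => ?_)
    exact Finset.sum_congr rfl fun i _ => by ring
  have f3 : 0 ≤ ∫ p : Ω × Ω, ⟪X p.1, X p.2⟫ * (a p.1 * a p.2) ∂(ν.prod ν) := by
    have hu : ∀ i : Fin d, BM fun x => X x i * a x := fun i => (cX i).mul ba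
    have h := sum_prod ν _ _ hu hu
    refine (Finset.sum_nonneg fun q _ => mul_self_nonneg _).trans (h.symm.trans ?_).le
    refine integral_congr_ae (ae_of_all _ fun p => ?_)
    simp only [inn_eq, Finset.sum_mul]
    exact Finset.sum_congr rfl fun i _ => by ring
  have f5 : 0 ≤ ∫ p : Ω × Ω, a p.1 * a p.2 ∂(ν.prod ν) := by
    rw [integral_prod_mul]
    exact mul_self_nonneg _
  have b4 := ((BM.const (τ ^ 2)).sub bg.sq).mul ba.sq.fst
  have b4' := ((BM.const (τ ^ 2)).sub bg.sq).mul ba.sq.snd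
  have f4 : 0 ≤ ∫ p : Ω × Ω, (τ ^ 2 - ⟪X p.1, X p.2⟫ ^ 2) * a p.1 ^ 2 ∂(ν.prod ν) := by
    rw [integral_prod _ (b4.int _)]
    refine integral_nonneg_of_ae (hi.mono fun x hx => ?_)
    have i1 : Integrable (fun y => ⟪X x, X y⟫ ^ 2) ν := by
      obtain ⟨m, K, hK⟩ := bg.sq
      exact BM.int ⟨m.comp measurable_prodMk_left, K, fun y => hK (x, y)⟩ ν
    simp only [Pi.zero_apply]
    rw [integral_mul_const, integral_sub (integrable_const _) i1, integral_const, smul_eq_mul]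
    exact mul_nonneg (by linarith) (sq_nonneg _)
  have f4' : 0 ≤ ∫ p : Ω × Ω, (τ ^ 2 - ⟪X p.1, X p.2⟫ ^ 2) * a p.2 ^ 2 ∂(ν.prod ν) := by
    rw [← integral_prod_swap]
    refine f4.trans_eq (integral_congr_ae (ae_of_all _ fun p => ?_))
    simp only [Prod.fst_swap, Prod.snd_swap, real_inner_comm]
  have i2 := ((BM.const τ).mul (bg.mul bU.sq))
  have i3 := ((BM.const (2 * τ)).mul (bg.mul (ba.fst.mul ba.snd)))
  have i5 := ((BM.const (4 * τ ^ 2)).mul (ba.fst.mul ba.snd))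
  have i1 := ((BM.const (4 * τ ^ 2)).mul (bU.mul ba.fst))
  have i1' := ((BM.const (4 * τ ^ 2)).mul (bU.mul ba.snd))
  have i4 := (BM.const (3 / 2)).mul b4
  have i4' := (BM.const (3 / 2)).mul b4'
  have iR := (BM.const τ).mul ((bg.add (BM.const (2 * τ))).mul ((bU.sub ba.fst).sub ba.snd).sq)
  have key := integral_mono (((((((i2.add i3).add i5).sub i1).sub i1').add i4).add i4').int
    (ν.prod ν)) (iR.int _) fun p => ptw τ _ _ _ _
  rw [integral_add ((((((i2.add i3).add i5).sub i1).sub i1').add i4).int _) (i4'.int _),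
    integral_add (((((i2.add i3).add i5).sub i1).sub i1').int _) (i4.int _),
    integral_sub ((((i2.add i3).add i5).sub i1).int _) (i1'.int _),
    integral_sub (((i2.add i3).add i5).int _) (i1.int _),
    integral_add ((i2.add i3).int _) (i5.int _), integral_add (i2.int _) (i3.int _)] at key
  simp only [integral_const_mul] at key
  rw [f1, f1'] at key
  simp only [e]
  refine le_of_mul_le_mul_left (le_trans ?_ key) hτ
  have := mul_nonneg hτ.le f2
  have := mul_nonneg hτ.le f3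
  have := mul_nonneg (sq_nonneg τ) f5
  nlinarith

end

end Pool.Agent.MP_66cee2_co.H84T.H37
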