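import Pool.Agent.MP_66cee2_co.P.Col

/-
Lifts in a subspace of dimension at most three whose graph is not bipartite.
-/

namespace Pool.Agent.MP_66cee2_co.D.H84

open Module Pool.Agent.MP_66cee2_co.X
open scoped RealInnerProductSpace

namespace Colx

variable {n : ℕ}

/-- the Euclidean part. -/
noncomputable def eu (n : ℕ) : (Ix n → ℝ) →ₗ[ℝ] E n where
  toFun v := WithLp.toLp 2 fun i => v (Sum.inl i)
  map_add' _ _ := rfl
  map_smul' _ _ := rfl

theorem eu_lift (p : E n) : eu n (lift p) = p := rfl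

theorem lz_eu (a b : Ix n → ℝ) :
    lz a b = 2 * ⟪eu n a, eu n b⟫ + a sI * b (Sum.inr false) + a (Sum.inr false) * b sI := by
  rw [lz_eq]
  simp only [eu, LinearMap.coe_mk, AddHom.coe_mk, PiLp.inner_apply, RCLike.inner_apply,
    conj_trivial]
  rw [Finset.sum_congr rfl fun i _ => mul_comm (b (Sum.inl i)) (a (Sum.inl i))]

theorem coordC (U : Submodule ℝ (E n)) (hU : finrank ℝ U ≤ 2) :
    ∃ y : E n → ℂ, (∀ w w', y w - y w' = y (w - w')) ∧
      ∀ w ∈ U, Complex.normSq (y w) = ‖w‖ ^ 2 := by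
  obtain ⟨k, hk, ⟨b⟩⟩ : ∃ k, k ≤ 2 ∧ Nonempty (OrthonormalBasis (Fin k) ℝ U) :=
    ⟨_, hU, ⟨stdOrthonormalBasis ℝ U⟩⟩
  have hb : ∀ w (hw : w ∈ U), ∑ i, ⟪(b i : E n), w⟫ ^ 2 = ‖w‖ ^ 2 := fun w hw => by
    simpa using b.sum_sq_inner_right ⟨w, hw⟩
  interval_cases k
  · refine ⟨fun _ => 0, fun _ _ => by simp, fun w hw => ?_⟩
    simpa using hb w hw
  · refine ⟨fun w => ⟨⟪(b 0 : E n), w⟫, 0⟩, fun w w' => ?_, fun w hw => ?_⟩
    · apply Complex.ext <;> simp [inner_sub_right]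
    · rw [Complex.normSq_mk, ← hb w hw, Fin.sum_univ_one]
      ring
  · refine ⟨fun w => ⟨⟪(b 0 : E n), w⟫, ⟪(b 1 : E n), w⟫⟩, fun w w' => ?_, fun w hw => ?_⟩
    · apply Complex.ext <;> simp [inner_sub_right]
    · rw [Complex.normSq_mk, ← hb w hw, Fin.sum_univ_two]
      ring

theorem coordR (U : Submodule ℝ (E n)) (hU : finrank ℝ U ≤ 1) :
    ∃ y : E n → ℝ, (∀ w w', y w - y w' = y (w - w')) ∧ ∀ w ∈ U, y w ^ 2 = ‖w‖ ^ 2 := by
  obtain ⟨k, hk, ⟨b⟩⟩ : ∃ k, k ≤ 1 ∧ Nonempty (OrthonormalBasis (Fin k) ℝ U) :=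
    ⟨_, hU, ⟨stdOrthonormalBasis ℝ U⟩⟩
  have hb : ∀ w (hw : w ∈ U), ∑ i, ⟪(b i : E n), w⟫ ^ 2 = ‖w‖ ^ 2 := fun w hw => by
    simpa using b.sum_sq_inner_right ⟨w, hw⟩
  interval_cases k
  · refine ⟨fun _ => 0, fun _ _ => by simp, fun w hw => ?_⟩
    simpa using hb w hw
  · refine ⟨fun w => ⟪(b 0 : E n), w⟫, fun w w' => ?_, fun w hw => ?_⟩
    · simp [inner_sub_right]
    · rw [← hb w hw, Fin.sum_univ_one]

theorem sq_eq_one_iff_of_ne_zero' {t : ℝ} (h : t ^ 2 = 1) : t = 1 ∨ t = -1 := by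
  have : (t - 1) * (t + 1) = 0 := by linarith
  rcases mul_eq_zero.1 this with h | h
  · exact Or.inl (by linarith)
  · exact Or.inr (by linarith)

/-- unit steps on a line form a bipartite graph. -/
theorem line {V : Type} (G : SimpleGraph V) (x : V → ℝ)
    (h : ∀ v v', G.Adj v v' → (x v - x v') ^ 2 = 1) (u : V) (w : G.Walk u u) : Even w.length := by
  have walk : ∀ (v v' : V) (W : G.Walk v v'), ∃ j : ℤ, Even (j - W.length) ∧ x v' = x v + j := by
    intro v v' W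
    induction W with
    | nil => exact ⟨0, by simp, by simp⟩
    | cons h' W ih =>
      obtain ⟨j, ⟨m, hm⟩, hj⟩ := ih
      rcases sq_eq_one_iff_of_ne_zero' (h _ _ h') with e | e
      · refine ⟨j + -1, ⟨m - 1, ?_⟩, by push_cast; linarith⟩
        rw [SimpleGraph.Walk.length_cons]
        push_cast
        omega
      · refine ⟨j + 1, ⟨m, ?_⟩, by push_cast; linarith⟩
        rw [SimpleGraph.Walk.length_cons]
        push_cast
        omega
  obtain ⟨j, ⟨m, hm⟩, hj⟩ := walk u u w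
  have h0 : j = 0 := by
    have : (j : ℝ) = 0 := by linarith
    exact_mod_cast this
  rw [Nat.even_iff]
  omega

/-- unit chords of a circle with an odd closed walk. -/
theorem circ {V : Type} (G : SimpleGraph V) (z : V → ℂ) (r : ℝ)
    (h : ∀ v v', G.Adj v v' → Complex.normSq (z v) = r ∧ Complex.normSq (z v') = r ∧
      Complex.normSq (z v - z v') = 1) (u : V) (w : G.Walk u u) (hw : ¬ Even w.length) :
    r ≠ 0 ∧ ∃ a : ℂ, IsIntegral ℤ a ∧ a * (2 * ((1 - 1 / (2 * r) : ℝ) : ℂ)) = 1 := by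
  set c : ℝ := 1 - 1 / (2 * r) with hc
  obtain ⟨ω, hω⟩ : ∃ ω : ℂ, ω ^ 2 - 2 * (c : ℂ) * ω + 1 = 0 := by
    obtain ⟨σ, hσ⟩ := IsAlgClosed.exists_pow_nat_eq ((c : ℂ) ^ 2 - 1) (n := 2) (by norm_num)
    exact ⟨c + σ, by linear_combination hσ⟩
  have hω0 : ω ≠ 0 := by
    rintro rfl
    simp at hω
  have hv : ω * ω⁻¹ = 1 := mul_inv_cancel₀ hω0
  have hsum : ω + ω⁻¹ = 2 * (c : ℂ) := by
    apply mul_left_cancel₀ hω0
    linear_combination hω + hv
  have edge : ∀ v v', G.Adj v v' → (r ≠ 0 ∧ z v ≠ 0) ∧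
      (z v' = ω ^ (1 : ℤ) * z v ∨ z v' = ω ^ (-1 : ℤ) * z v) := by
    intro v v' hh
    obtain ⟨h1, h2, h3⟩ := h v v' hh
    obtain ⟨hr, ht⟩ := P.Col.turn _ (z v) (z v') h1 h2 h3
    refine ⟨⟨hr, fun h0 => hr ?_⟩, ?_⟩
    · rw [← h1, h0, map_zero]
    · have ht' : z v' ^ 2 - 2 * (c : ℂ) * z v * z v' + z v ^ 2 = 0 := ht
      have : (z v' - ω * z v) * (z v' - ω⁻¹ * z v) = 0 := by
        linear_combination ht' - z v * z v' * hsum + z v ^ 2 * hv
      rw [zpow_one, zpow_neg_one]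
      rcases mul_eq_zero.1 this with h | h
      · exact Or.inl (sub_eq_zero.1 h)
      · exact Or.inr (sub_eq_zero.1 h)
  have walk : ∀ (v v' : V) (W : G.Walk v v'), ∃ j : ℤ, Even (j - W.length) ∧
      z v' = ω ^ j * z v := by
    intro v v' W
    induction W with
    | nil => exact ⟨0, by simp, by simp⟩
    | cons h W ih =>
      obtain ⟨j, ⟨m, hm⟩, hj⟩ := ih
      rcases (edge _ _ h).2 with e | e
      · refine ⟨j + 1, ⟨m, ?_⟩, by rw [hj, e, zpow_add₀ hω0, mul_assoc]⟩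
        rw [SimpleGraph.Walk.length_cons]
        push_cast
        omega
      · refine ⟨j + -1, ⟨m - 1, ?_⟩, by rw [hj, e, zpow_add₀ hω0, mul_assoc]⟩
        rw [SimpleGraph.Walk.length_cons]
        push_cast
        omega
  have hu : r ≠ 0 ∧ z u ≠ 0 := by
    cases w with
    | nil => simp at hw
    | cons h W => exact (edge _ _ h).1
  obtain ⟨j, ⟨m, hm⟩, hj⟩ := walk u u w
  have hj1 : ω ^ j = 1 := by
    apply mul_right_cancel₀ hu.2
    rw [← hj, one_mul]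
  have hodd : Odd j.natAbs := by
    obtain ⟨l, hl⟩ := Nat.not_even_iff_odd.1 hw
    rw [Nat.odd_iff]
    omega
  have hk : ω ^ j.natAbs = 1 := by
    rcases Int.natAbs_eq j with e | e
    · rw [← zpow_natCast, ← e, hj1]
    · have : ω ^ (-(j.natAbs : ℤ)) = 1 := by rw [← e, hj1]
      rwa [zpow_neg, inv_eq_one, zpow_natCast] at this
  have h1 : ω ≠ 1 := by
    rintro rfl
    have h2 : (c : ℂ) = 1 := by linear_combination (-1 / 2 : ℂ) * hω
    have h3 : c = 1 := by exact_mod_cast h2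
    have h4 : 1 / (2 * r) = 0 := by linarith
    exact (one_div_ne_zero (mul_ne_zero two_ne_zero hu.1)) h4
  obtain ⟨a, ha, ha'⟩ := P.Col.alg ω _ hodd hk h1
  exact ⟨hu.1, a, ha, by rw [← hsum, ha']⟩

end Colx

open Colx

/-- the lifts in a subspace of dimension at most three. -/
theorem colP {n : ℕ} (W : Submodule ℝ (Ix n → ℝ)) (hW : finrank ℝ W ≤ 3) (ε : Ix n → ℝ)
    (hε : ε ∈ W) (he : ∀ v ∈ W, lz v ε = v sI)
    (H : ∀ s : E n → Bool, ¬ ∀ p p' : E n, lift p ∈ W → lift p' ∈ W → ‖p - p'‖ = 1 → s p ≠ s p') :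
    ∃ a : ℂ, IsIntegral ℤ a ∧ 2 * a = 1 - ((lz ε ε : ℝ) : ℂ) := by
  let G : SimpleGraph (E n) :=
    { Adj := fun v v' => lift v ∈ W ∧ lift v' ∈ W ∧ ‖v - v'‖ = 1
      symm := ⟨fun v v' h => ⟨h.2.1, h.1, by rw [norm_sub_rev]; exact h.2.2⟩⟩
      loopless := ⟨fun v h => by simpa using h.2.2⟩ }
  have hG : ¬ G.Colorable 2 := by
    rintro ⟨C⟩
    refine H (fun v => decide (C v = 0)) fun v v' hv hv' h => ?_
    have hne : C v ≠ C v' := C.valid (show G.Adj v v' from ⟨hv, hv', h⟩)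
    generalize C v = i at hne
    generalize C v' = j at hne
    revert i j
    decide
  rw [SimpleGraph.two_colorable_iff_forall_loop_even] at hG
  push Not at hG
  obtain ⟨u, w, hw⟩ := hG
  have hu : lift u ∈ W := by
    cases w with
    | nil => simp at hw
    | cons h W => exact h.1
  let W0 : Submodule ℝ (Ix n → ℝ) := W ⊓ LinearMap.ker (LinearMap.proj (R := ℝ) sI)
  have mW0 : ∀ v, v ∈ W0 ↔ v ∈ W ∧ v sI = 0 := fun v => Iff.rfl
  have hlt : W0 < W := lt_of_le_of_ne inf_le_left fun h => by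
    have := ((mW0 _).1 (h ▸ hu)).2
    simp [lift] at this
  have h0 : finrank ℝ W0 ≤ 2 := by
    have := Submodule.finrank_lt_finrank_of_lt hlt
    omega
  have hκ : lz ε ε = ε sI := he ε hε
  by_cases hk : ε sI = 0
  · exfalso
    have hE : eu n ε = 0 := by
      have := lz_eu ε ε
      rw [hκ, hk] at this
      exact (inner_self_eq_zero (𝕜 := ℝ)).1 (by linarith)
    have hε0 : ε ≠ 0 := fun h => by
      have := he _ hu
      rw [h] at this
      simp [lz, lift] at this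
      revert this
      have : Jv (0 : Ix n → ℝ) = 0 := by
        funext a
        rcases a with i | b <;> simp [Jv]
      simp [this]
    have h1 : finrank ℝ (W0.map (eu n)) ≤ 1 := by
      have e1 := LinearMap.finrank_range_add_finrank_ker ((eu n).domRestrict W0)
      rw [LinearMap.range_domRestrict] at e1
      have e2 : 0 < finrank ℝ (LinearMap.ker ((eu n).domRestrict W0)) := by
        let x : W0 := ⟨ε, (mW0 _).2 ⟨hε, hk⟩⟩
        have hx : x ∈ LinearMap.ker ((eu n).domRestrict W0) := LinearMap.mem_ker.2 hE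
        let z : LinearMap.ker ((eu n).domRestrict W0) := ⟨x, hx⟩
        have hz : z ≠ 0 := fun h => hε0 (congrArg Subtype.val (congrArg Subtype.val h))
        exact (Module.finrank_pos_iff_exists_ne_zero (R := ℝ)).2 ⟨z, hz⟩
      omega
    obtain ⟨y, hy1, hy2⟩ := coordR _ h1
    refine hw (line G y (fun v v' h => ?_) u w)
    rw [hy1, hy2 (v - v')
      ⟨lift v - lift v', (mW0 _).2 ⟨W.sub_mem h.1 h.2.1, by simp [lift]⟩, rfl⟩, h.2.2]
    norm_num
  · obtain ⟨y, hy1, hy2⟩ := coordC (W0.map (eu n)) ((Submodule.finrank_map_le _ _).trans h0)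
    set κ := ε sI with hκd
    have hm : ∀ v, lift v ∈ W → lift v - κ⁻¹ • ε ∈ W0 := fun v hv =>
      (mW0 _).2 ⟨W.sub_mem hv (W.smul_mem _ hε), by
        simp only [Pi.sub_apply, Pi.smul_apply, smul_eq_mul, lift, ← hκd]
        field_simp
        ring⟩
    have hr : ∀ v, lift v ∈ W →
        Complex.normSq (y (v - κ⁻¹ • eu n ε)) = (1 - 1 / κ) / 2 := fun v hv => by
      rw [hy2 _ ⟨_, hm v hv, by rw [map_sub, map_smul, eu_lift]⟩]
      have a1 := he _ hv
      have a2 := lz_eu ε ε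
      rw [lz_eu, eu_lift] at a1
      rw [hκ, real_inner_self_eq_norm_sq] at a2
      simp only [lift, ← hκd] at a1 a2
      rw [norm_sub_sq_real, real_inner_smul_right, norm_smul, mul_pow, Real.norm_eq_abs, sq_abs]
      field_simp
      linear_combination (-2 * κ) * a1 - a2
    obtain ⟨hr0, a, ha, ha'⟩ := circ G (fun v => y (v - κ⁻¹ • eu n ε)) ((1 - 1 / κ) / 2)
      (fun v v' h => ⟨hr v h.1, hr v' h.2.1, by
        rw [hy1, sub_sub_sub_cancel_right,
          hy2 (v - v') ⟨lift v - lift v', (mW0 _).2 ⟨W.sub_mem h.1 h.2.1, by simp [lift]⟩, rfl⟩,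
          h.2.2]
        norm_num⟩) u w hw
    refine ⟨a, ha, ?_⟩
    have hk1 : κ - 1 ≠ 0 := fun h => hr0 (by
      have : κ = 1 := by linarith
      rw [this]; norm_num)
    have e : (1 - 1 / (2 * ((1 - 1 / κ) / 2)) : ℝ) * (1 - κ) = 1 := by
      field_simp
      ring
    have e' : ((1 - 1 / (2 * ((1 - 1 / κ) / 2)) : ℝ) : ℂ) * (1 - (κ : ℂ)) = 1 := by
      exact_mod_cast e
    rw [hκ]
    linear_combination (1 - (κ : ℂ)) * ha' - 2 * a * e'

/-- the same with colours on vectors. -/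
theorem colL {n : ℕ} (W : Submodule ℝ (Ix n → ℝ)) (hW : finrank ℝ W ≤ 3) (ε : Ix n → ℝ)
    (hε : ε ∈ W) (he : ∀ v ∈ W, lz v ε = v sI)
    (H : ∀ s : (Ix n → ℝ) → Bool, ¬ ∀ v ∈ W, ∀ v' ∈ W, (∃ p, v = lift p) → (∃ p, v' = lift p) →
      lz v v' = 0 → s v ≠ s v') :
    ∃ a : ℂ, IsIntegral ℤ a ∧ 2 * a = 1 - ((lz ε ε : ℝ) : ℂ) := by
  refine colP W hW ε hε he fun s hs => H (fun v => s (eu n v)) ?_
  rintro _ hv _ hv' ⟨p, rfl⟩ ⟨p', rfl⟩ h
  rw [lz_lift] at h
  refine hs p p' hv hv' ?_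
  exact (pow_eq_one_iff_of_nonneg (norm_nonneg _) two_ne_zero).1 (by linarith)

end Pool.Agent.MP_66cee2_co.D.H84
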